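import Pool.Agent.Q104.ChordGraph

/-!
# MP_3aeeeb_co: a unicyclic SSP graph of girth four that is not a tadpole
-/

set_option autoImplicit false

namespace Pool.Agent.Results.MP_3aeeeb_co.TwoPaths

open Pool.Agent.Q104.SSP

/-- There is a unicyclic graph of girth 4 (on eight vertices) in `𝒢^SSP` that is neither a 4-cycle
nor a 5-cycle nor a tadpole. -/
theorem result : ∃ G : SimpleGraph (Fin 8), Unicyclic G ∧ G.girth = 4 ∧ GSSP G ∧
    IsEmpty (G ≃g SimpleGraph.cycleGraph 4) ∧ IsEmpty (G ≃g SimpleGraph.cycleGraph 5) ∧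
    ∀ m n : ℕ, 3 ≤ m → IsEmpty (G ≃g tadpole m n) := by
  refine ⟨G13, G13_unicyclic, G13_girth, G13_GSSP, ⟨fun f => ?_⟩, ⟨fun f => ?_⟩,
    fun m n hm => G13_not_tadpole hm⟩
  · have := Fintype.card_congr f.toEquiv
    simp at this
  · have := Fintype.card_congr f.toEquiv
    simp at this

end Pool.Agent.Results.MP_3aeeeb_co.TwoPaths
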